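import Mathlib
import Pool.Agent.R241.FP3

/-!
# Path and star densities in large trees outside the hull of the millipedes

The set `𝒫` of the limits of the densities of the paths and of the stars with five vertices in large
trees is different from the convex hull `C` of the point `(0, 1)` and of the limits `m_d` of the
`d`-millipedes: the point `(4/169, 66/169)` belongs to `𝒫` and not to `C`.

The trees are caterpillars whose spine vertices have the degrees `11, 11, 2, 2` periodically: with
`4n` spine vertices there are `40 n - 20` paths, `660 n` stars and `990 n - 45` trees of the third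
kind. Every point of `C` satisfies `8 p₁ + 2 p₂ ≥ 1`.
-/

set_option autoImplicit false

open Filter Topology Pool.Agent.R241.FP

namespace Pool.Agent.Results.MP_ed556a_co.DensitiesOutsideHull

section

variable {V : Type} [Fintype V] (T : SimpleGraph V)

/-- The number of the subgraphs which are paths with five vertices. -/
noncomputable def pathCount : ℕ := T.copyCount pathG

/-- The number of the subgraphs which are stars with five vertices. -/
noncomputable def starCount : ℕ := T.copyCount starG

/-- The number of the subgraphs which are trees of the third kind with five vertices. -/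
noncomputable def forkCount : ℕ := T.copyCount forkG

/-- The 5-profile. -/
noncomputable def profile : ℝ × ℝ × ℝ :=
  (pathCount T / (pathCount T + starCount T + forkCount T : ℝ),
    starCount T / (pathCount T + starCount T + forkCount T : ℝ),
    forkCount T / (pathCount T + starCount T + forkCount T : ℝ))

end

/-- The limits of the 5-profiles of trees whose numbers of vertices tend to infinity. -/
def limitProfiles : Set (ℝ × ℝ × ℝ) :=
  {p | ∃ (V : ℕ → Type) (_ : ∀ n, Fintype (V n)) (T : ∀ n, SimpleGraph (V n)),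
    (∀ n, (T n).IsTree) ∧ Tendsto (fun n => Fintype.card (V n)) atTop atTop ∧
      Tendsto (fun n => profile (T n)) atTop (𝓝 p)}

/-- The limiting path and star densities. -/
def limitDensities : Set (ℝ × ℝ) := {q | ∃ p ∈ limitProfiles, q = (p.1, p.2.1)}

/-- The point `m_d`. -/
noncomputable def millipede (d : ℕ) : ℝ × ℝ :=
  (((d : ℝ) + 1) ^ 2 / (((d + 2).choose 4 : ℕ) + ((d : ℝ) + 1) ^ 3),
    (((d + 2).choose 4 : ℕ) : ℝ) / (((d + 2).choose 4 : ℕ) + ((d : ℝ) + 1) ^ 3))

/-- The convex hull `C` of `(0, 1)` and the points `m_d`, `d ≥ 0`. -/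
noncomputable def millipedeHull : Set (ℝ × ℝ) := convexHull ℝ ({(0, 1)} ∪ Set.range millipede)

theorem choose_four (d : ℕ) : 24 * (((d + 2).choose 4 : ℕ) : ℝ) = (d + 2) * (d + 1) * d * (d - 1) := by
  rcases Nat.eq_zero_or_pos d with h | h
  · subst h
    have : Nat.choose (0 + 2) 4 = 0 := by decide
    rw [this]
    norm_num
  · obtain ⟨e, rfl⟩ : ∃ e, d = e + 1 := ⟨d - 1, by omega⟩
    have h1 := Nat.descFactorial_eq_factorial_mul_choose (e + 1 + 2) 4
    have h2 : (e + 1 + 2).descFactorial 4 = e * ((e + 1) * ((e + 2) * (e + 3))) := by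
      simp only [Nat.descFactorial_succ, Nat.descFactorial_zero]
      rw [show e + 1 + 2 - 3 = e by omega, show e + 1 + 2 - 2 = e + 1 by omega,
        show e + 1 + 2 - 1 = e + 2 by omega, show e + 1 + 2 - 0 = e + 3 by omega, mul_one]
    have h3 : (Nat.factorial 4) = 24 := by decide
    rw [h2, h3] at h1
    have h4 : ((e * ((e + 1) * ((e + 2) * (e + 3))) : ℕ) : ℝ) =
        ((24 * (e + 1 + 2).choose 4 : ℕ) : ℝ) := by rw [h1]
    push_cast at h4 ⊢
    rw [← h4]
    ring

theorem hull_sub : millipedeHull ⊆ {q | 1 ≤ 8 * q.1 + 2 * q.2} := by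
  refine convexHull_min ?_ ?_
  · rintro _ (rfl | ⟨d, rfl⟩)
    · norm_num
    · have h1 := choose_four d
      obtain ⟨B, hB⟩ : ∃ B : ℝ, B = (((d + 2).choose 4 : ℕ) : ℝ) := ⟨_, rfl⟩
      have hB0 : 0 ≤ B := by rw [hB]; positivity
      have hd : (0 : ℝ) ≤ d := Nat.cast_nonneg d
      have hpos : 0 < B + ((d : ℝ) + 1) ^ 3 := by positivity
      show 1 ≤ 8 * (((d : ℝ) + 1) ^ 2 / _) + 2 * (_ / _)
      rw [← hB] at h1 ⊢
      rw [← mul_div_assoc, ← mul_div_assoc, ← add_div, le_div_iff₀ hpos]
      have h2 : 0 ≤ ((d : ℝ) + 1) * (((d : ℝ) + 1) * ((d : ℝ) - 12) ^ 2 + 22 * (d + 1) + 2) := by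
        positivity
      nlinarith
  · have : {q : ℝ × ℝ | 1 ≤ 8 * q.1 + 2 * q.2} =
        {q | 1 ≤ (8 • LinearMap.fst ℝ ℝ ℝ + 2 • LinearMap.snd ℝ ℝ ℝ) q} := by
      ext q
      simp
    rw [this]
    exact convex_halfSpace_ge (LinearMap.isLinear _) 1

theorem counts (n : ℕ) : pathCount (TT (4 * (n + 1))) = 20 + 40 * n ∧
    starCount (TT (4 * (n + 1))) = 660 + 660 * n ∧ forkCount (TT (4 * (n + 1))) = 945 + 990 * n := by
  have h1 := copyCount_mul (G := TT (4 * (n + 1))) (H := pathG)
  have h2 := copyCount_mul (G := TT (4 * (n + 1))) (H := starG)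
  have h3 := copyCount_mul (G := TT (4 * (n + 1))) (H := forkG)
  have e1 := path_TT (N := 4 * (n + 1)) (by omega)
  have e2 := star_TT (n + 1)
  have e3 := fork_TT (n := n + 1) (by omega)
  rw [aut_path] at h1
  rw [aut_star] at h2
  rw [aut_fork] at h3
  rw [← h1] at e1
  rw [← h2] at e2
  rw [← h3] at e3
  refine ⟨?_, ?_, ?_⟩
  · unfold pathCount
    push_cast at e1
    omega
  · unfold starCount
    omega
  · unfold forkCount
    push_cast at e3
    omega

theorem mem_limit : ((4 / 169 : ℝ), (66 / 169 : ℝ)) ∈ limitDensities := by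
  refine ⟨(4 / 169, 66 / 169, 99 / 169), ⟨fun n => VT (4 * (n + 1)), fun n => inferInstance,
    fun n => TT (4 * (n + 1)), fun n => isTree_TT (by omega), ?_, ?_⟩, rfl⟩
  · refine tendsto_atTop_mono (fun n => ?_) tendsto_id
    simp only [id]
    exact le_trans (by omega) (card_VT_ge (4 * (n + 1)))
  · have hp : ∀ n : ℕ, profile (TT (4 * (n + 1))) =
        ((20 + 40 * (n : ℝ)) / (1625 + 1690 * n), (660 + 660 * (n : ℝ)) / (1625 + 1690 * n),
          (945 + 990 * (n : ℝ)) / (1625 + 1690 * n)) := by
      intro n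
      obtain ⟨h1, h2, h3⟩ := counts n
      unfold profile
      rw [h1, h2, h3]
      push_cast
      have e : (20 + 40 * (n : ℝ) + (660 + 660 * n) + (945 + 990 * n)) = 1625 + 1690 * n := by ring
      rw [e]
    simp only [hp]
    refine Tendsto.prodMk_nhds ?_ (Tendsto.prodMk_nhds ?_ ?_)
    · have := tendsto_add_mul_div_add_mul_atTop_nhds (20 : ℝ) 1625 40 (show (1690 : ℝ) ≠ 0 by norm_num)
      rwa [show (40 / 1690 : ℝ) = 4 / 169 by norm_num] at this
    · have := tendsto_add_mul_div_add_mul_atTop_nhds (660 : ℝ) 1625 660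
        (show (1690 : ℝ) ≠ 0 by norm_num)
      rwa [show (660 / 1690 : ℝ) = 66 / 169 by norm_num] at this
    · have := tendsto_add_mul_div_add_mul_atTop_nhds (945 : ℝ) 1625 990
        (show (1690 : ℝ) ≠ 0 by norm_num)
      rwa [show (990 / 1690 : ℝ) = 99 / 169 by norm_num] at this

/-- The set of the limiting path and star densities is different from the convex hull of `(0, 1)` and
the points `m_d`: it contains the point `(4/169, 66/169)`, which is not in this hull. -/
theorem result : limitDensities ≠ millipedeHull ∧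
    ((4 / 169 : ℝ), (66 / 169 : ℝ)) ∈ limitDensities ∧
    ((4 / 169 : ℝ), (66 / 169 : ℝ)) ∉ millipedeHull := by
  have h1 : ((4 / 169 : ℝ), (66 / 169 : ℝ)) ∉ millipedeHull := by
    intro h
    have h2 : (1 : ℝ) ≤ 8 * (4 / 169) + 2 * (66 / 169) := hull_sub h
    norm_num at h2
  exact ⟨fun h => h1 (h ▸ mem_limit), mem_limit, h1⟩

end Pool.Agent.Results.MP_ed556a_co.DensitiesOutsideHull
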